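import Mathlib

set_option autoImplicit false

namespace Pool.Agent.Results.MP_873812_co.SepBounded

open Finset

/-! ### Definitions -/

/-- The hypergraph with edge set `E` is `r`-uniform. -/
def IsUniform {V : Type*} (r : ℕ) (E : Finset (Finset V)) : Prop := ∀ e ∈ E, e.card = r

/-- The hypergraph with edge set `E` is linear: any two distinct vertices lie in at most one
common edge. -/
def IsLinear {V : Type*} (E : Finset (Finset V)) : Prop :=
  ∀ u v : V, u ≠ v → ∀ e ∈ E, ∀ f ∈ E, u ∈ e → v ∈ e → u ∈ f → v ∈ f → e = f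

/-- The average degree `r |E| / |V|` of an `r`-uniform hypergraph. -/
noncomputable def avgDegree {V : Type*} [Fintype V] (r : ℕ) (E : Finset (Finset V)) : ℝ :=
  (r : ℝ) * (E.card : ℝ) / (Fintype.card V : ℝ)

/-- `φ` is an `L`-colouring. -/
def IsListColouring {V : Type*} (L : V → Finset ℕ) (φ : V → ℕ) : Prop := ∀ v, φ v ∈ L v

/-- `φ` is proper: no edge has all its vertices in one colour. -/
def IsProper {V : Type*} (E : Finset (Finset V)) (φ : V → ℕ) : Prop :=
  ∀ e ∈ E, ¬ ∃ c, ∀ v ∈ e, φ v = c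

/-- The list assignment `L` is separated: `|L u ∩ L v| ≤ 1` whenever `u ≠ v` lie in a common
edge. -/
def IsSeparated {V : Type*} (E : Finset (Finset V)) (L : V → Finset ℕ) : Prop :=
  ∀ e ∈ E, ∀ u ∈ e, ∀ v ∈ e, u ≠ v → (L u ∩ L v).card ≤ 1

/-- `φ` is adapted to the edge labelling `α`: no edge `e` has all its vertices coloured `α e`. -/
def IsAdapted {V : Type*} (E : Finset (Finset V)) (α : Finset V → ℕ) (φ : V → ℕ) : Prop :=
  ∀ e ∈ E, ¬ ∀ v ∈ e, φ v = α e

/-- The separation choice number. -/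
noncomputable def chSep {V : Type*} (E : Finset (Finset V)) : ℕ :=
  sInf {k : ℕ | ∀ L : V → Finset ℕ, (∀ v, k ≤ (L v).card) → IsSeparated E L →
    ∃ φ : V → ℕ, IsListColouring L φ ∧ IsProper E φ}

/-- The adaptable choice number. -/
noncomputable def chAd {V : Type*} (E : Finset (Finset V)) : ℕ :=
  sInf {k : ℕ | ∀ L : V → Finset ℕ, (∀ v, k ≤ (L v).card) → ∀ α : Finset V → ℕ,
    ∃ φ : V → ℕ, IsListColouring L φ ∧ IsAdapted E α φ}

/-! ### The colouring lemma -/

/-- The vertices whose list contains the colour `c`. -/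
noncomputable def cls {V : Type*} [Fintype V] [DecidableEq V] (L : V → Finset ℕ) (c : ℕ) :
    Finset V := {v | c ∈ L v}

lemma mem_cls {V : Type*} [Fintype V] [DecidableEq V] {L : V → Finset ℕ} {c : ℕ} {v : V} :
    v ∈ cls L c ↔ c ∈ L v := by simp [cls]

lemma sum_card_cls_le {V : Type*} [Fintype V] [DecidableEq V] (L : V → Finset ℕ)
    (W : Finset V) (C : Finset ℕ) :
    ∑ c ∈ C, #{v ∈ W | c ∈ L v} ≤ ∑ v ∈ W, #(L v) := by
  classical
  have h : ∑ c ∈ C, #{v ∈ W | c ∈ L v} = ∑ v ∈ W, #{c ∈ C | c ∈ L v} :=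
    Finset.sum_card_bipartiteAbove_eq_sum_card_bipartiteBelow (r := fun c v => c ∈ L v)
  rw [h]
  apply Finset.sum_le_sum
  intro v _
  apply Finset.card_le_card
  intro c hc
  exact (Finset.mem_filter.mp hc).2

/-- Three-element separated lists on a locally sparse hypergraph whose vertices are divided into
few clusters of pairwise adjacent vertices admit a proper colouring. -/
lemma exists_colouring {V κ : Type*} [Fintype V] [DecidableEq V] [Fintype κ]
    (E : Finset (Finset V)) (cl : V → κ) (s : ℕ) (hs : 0 < s)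
    (hE2 : ∀ e ∈ E, 2 ≤ #e)
    (hsparse : ∀ T : Finset V, #T ≤ s → 3 * #{e ∈ E | e ⊆ T} ≤ #T)
    (hnum : 9 * Fintype.card V ^ 2 * Fintype.card κ ≤ s ^ 3)
    (L : V → Finset ℕ) (hL : ∀ v, #(L v) = 3)
    (hcl : ∀ u v, u ≠ v → cl u = cl v → #(L u ∩ L v) ≤ 1)
    (hsep : ∀ e ∈ E, ∀ u ∈ e, ∀ v ∈ e, u ≠ v → #(L u ∩ L v) ≤ 1) :
    ∃ φ : V → ℕ, IsListColouring L φ ∧ IsProper E φ := by
  classical
  -- the large colours
  set C : Finset ℕ := Finset.univ.biUnion L with hC
  set M : Finset ℕ := {c ∈ C | s < #(cls L c)} with hM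
  -- Step 1: few large colours
  have step1 : #M * s ≤ 3 * Fintype.card V := by
    calc #M * s = ∑ c ∈ M, s := by simp
      _ ≤ ∑ c ∈ M, #(cls L c) := by
        apply Finset.sum_le_sum
        intro c hc
        exact (Finset.mem_filter.mp hc).2.le
      _ ≤ ∑ v ∈ (Finset.univ : Finset V), #(L v) := by
        have := sum_card_cls_le L Finset.univ M
        simpa [cls] using this
      _ = 3 * Fintype.card V := by simp [hL, mul_comm]
  -- two colour classes meet in few vertices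
  have hinter : ∀ c c', c ≠ c' → #(cls L c ∩ cls L c') ≤ Fintype.card κ := by
    intro c c' hcc
    rw [← Finset.card_univ (α := κ)]
    apply Finset.card_le_card_of_injOn cl (fun _ _ => Finset.mem_coe.mpr (Finset.mem_univ _))
    intro u hu v hv huv
    by_contra hne
    have h1 := hcl u v hne huv
    rw [Finset.mem_coe, Finset.mem_inter, mem_cls, mem_cls] at hu hv
    have h2 : ({c, c'} : Finset ℕ) ⊆ L u ∩ L v := by
      intro x hx
      simp only [Finset.mem_insert, Finset.mem_singleton] at hx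
      rcases hx with rfl | rfl
      · exact Finset.mem_inter.mpr ⟨hu.1, hv.1⟩
      · exact Finset.mem_inter.mpr ⟨hu.2, hv.2⟩
    have h3 := Finset.card_le_card h2
    rw [Finset.card_pair hcc] at h3
    omega
  -- Step 2: few vertices in two large classes
  set U : Finset V := {v | 2 ≤ #(L v ∩ M)} with hU
  have step2 : #U ≤ s := by
    have h1 : U ⊆ M.offDiag.biUnion (fun p => cls L p.1 ∩ cls L p.2) := by
      intro v hv
      have hv2 : 2 ≤ #(L v ∩ M) := by simpa [hU] using hv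
      obtain ⟨a, ha, b, hb, hab⟩ := Finset.one_lt_card.mp (show 1 < #(L v ∩ M) by omega)
      rw [Finset.mem_inter] at ha hb
      refine Finset.mem_biUnion.mpr ⟨(a, b), Finset.mem_offDiag.mpr ⟨ha.2, hb.2, hab⟩, ?_⟩
      exact Finset.mem_inter.mpr ⟨mem_cls.mpr ha.1, mem_cls.mpr hb.1⟩
    have h2 : #U ≤ #M ^ 2 * Fintype.card κ := by
      calc #U ≤ #(M.offDiag.biUnion (fun p => cls L p.1 ∩ cls L p.2)) := Finset.card_le_card h1
        _ ≤ ∑ p ∈ M.offDiag, #(cls L p.1 ∩ cls L p.2) := Finset.card_biUnion_le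
        _ ≤ ∑ p ∈ M.offDiag, Fintype.card κ := by
          apply Finset.sum_le_sum
          intro p hp
          exact hinter _ _ (Finset.mem_offDiag.mp hp).2.2
        _ = #M.offDiag * Fintype.card κ := by simp
        _ ≤ #M ^ 2 * Fintype.card κ := by
          apply Nat.mul_le_mul_right
          rw [Finset.offDiag_card, sq]
          exact Nat.sub_le _ _
    have h3 : #U * s ^ 2 ≤ s * s ^ 2 := by
      calc #U * s ^ 2 ≤ (#M ^ 2 * Fintype.card κ) * s ^ 2 := Nat.mul_le_mul_right _ h2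
        _ = (#M * s) ^ 2 * Fintype.card κ := by ring
        _ ≤ (3 * Fintype.card V) ^ 2 * Fintype.card κ := by gcongr
        _ = 9 * Fintype.card V ^ 2 * Fintype.card κ := by ring
        _ ≤ s ^ 3 := hnum
        _ = s * s ^ 2 := by ring
    exact Nat.le_of_mul_le_mul_right h3 (by positivity)
  -- Step 3: the reduced lists
  set L' : V → Finset ℕ := fun v => if v ∈ U then L v else L v \ M with hL'
  have hL'sub : ∀ v, L' v ⊆ L v := by
    intro v
    by_cases hv : v ∈ U
    · simp [hL', hv]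
    · simp only [hL', hv, if_false]
      exact Finset.sdiff_subset
  have hL'card : ∀ v, 2 ≤ #(L' v) := by
    intro v
    by_cases hv : v ∈ U
    · simp [hL', hv, hL]
    · simp only [hL', hv, if_false]
      have h1 : #(L v ∩ M) < 2 := by simpa [hU] using hv
      have h2 := Finset.card_sdiff_add_card_inter (L v) M
      have h3 := hL v
      omega
  have hcls' : ∀ c, #(cls L' c) ≤ s := by
    intro c
    by_cases hc : c ∈ M
    · refine (Finset.card_le_card ?_).trans step2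
      intro v hv
      rw [mem_cls] at hv
      by_contra hvU
      simp only [hL', hvU, if_false, Finset.mem_sdiff] at hv
      exact hv.2 hc
    · have h1 : #(cls L c) ≤ s := by
        by_contra hlt
        push Not at hlt
        apply hc
        refine Finset.mem_filter.mpr ⟨?_, hlt⟩
        obtain ⟨v, hv⟩ := Finset.card_pos.mp (lt_trans hs hlt)
        exact Finset.mem_biUnion.mpr ⟨v, Finset.mem_univ _, mem_cls.mp hv⟩
      refine (Finset.card_le_card ?_).trans h1
      intro v hv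
      exact mem_cls.mpr (hL'sub v (mem_cls.mp hv))
  -- Step 4: dangerous edges
  have huniq : ∀ e ∈ E, ∀ c c', e ⊆ cls L' c → e ⊆ cls L' c' → c = c' := by
    intro e he c c' h1 h2
    by_contra hne
    obtain ⟨a, ha, b, hb, hab⟩ := Finset.one_lt_card.mp (show 1 < #e from hE2 e he)
    have h3 := hsep e he a ha b hb hab
    have h4 : ({c, c'} : Finset ℕ) ⊆ L a ∩ L b := by
      intro x hx
      simp only [Finset.mem_insert, Finset.mem_singleton] at hx
      rcases hx with rfl | rfl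
      · exact Finset.mem_inter.mpr ⟨hL'sub _ (mem_cls.mp (h1 ha)), hL'sub _ (mem_cls.mp (h1 hb))⟩
      · exact Finset.mem_inter.mpr ⟨hL'sub _ (mem_cls.mp (h2 ha)), hL'sub _ (mem_cls.mp (h2 hb))⟩
    have h5 := Finset.card_le_card h4
    rw [Finset.card_pair hne] at h5
    omega
  set D : Finset (Finset V) := {e ∈ E | ∃ c, e ⊆ cls L' c} with hD
  have hcol : ∀ e : Finset V, ∃ c, e ∈ D → e ⊆ cls L' c := by
    intro e
    by_cases he : e ∈ D
    · obtain ⟨c, hc⟩ := (Finset.mem_filter.mp he).2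
      exact ⟨c, fun _ => hc⟩
    · exact ⟨0, fun h => absurd h he⟩
  choose col hcol using hcol
  -- Step 5: Hall's theorem
  have hall : ∃ f : D → V, Function.Injective f ∧ ∀ e : D, f e ∈ (e : Finset V) := by
    rw [← Finset.all_card_le_biUnion_card_iff_exists_injective (fun e : D => (e : Finset V))]
    intro F
    set W : Finset V := F.biUnion (fun e : D => (e : Finset V)) with hW
    have h1 : ∀ c, 3 * #(F.filter fun e : D => col e = c) ≤ #{v ∈ W | c ∈ L v} := by
      intro c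
      set Uc : Finset V := (F.filter fun e : D => col e = c).biUnion
        (fun e : D => (e : Finset V)) with hUc
      have h2 : Uc ⊆ cls L' c := by
        intro v hv
        obtain ⟨e, he, hve⟩ := Finset.mem_biUnion.mp hv
        have he2 := (Finset.mem_filter.mp he).2
        have := hcol e e.2
        rw [he2] at this
        exact this hve
      have h3 : Uc ⊆ W := by
        intro v hv
        obtain ⟨e, he, hve⟩ := Finset.mem_biUnion.mp hv
        exact Finset.mem_biUnion.mpr ⟨e, (Finset.mem_filter.mp he).1, hve⟩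
      have h4 : #(F.filter fun e : D => col e = c) ≤ #{e ∈ E | e ⊆ Uc} := by
        apply Finset.card_le_card_of_injOn (fun e : D => (e : Finset V))
        · intro e he
          rw [Finset.mem_coe] at he ⊢
          refine Finset.mem_filter.mpr ⟨(Finset.mem_filter.mp e.2).1, ?_⟩
          intro v hv
          exact Finset.mem_biUnion.mpr ⟨e, he, hv⟩
        · intro e _ e' _ hee
          exact Subtype.ext hee
      have h5 := hsparse Uc ((Finset.card_le_card h2).trans (hcls' c))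
      have h6 : #Uc ≤ #{v ∈ W | c ∈ L v} := by
        apply Finset.card_le_card
        intro v hv
        exact Finset.mem_filter.mpr ⟨h3 hv, hL'sub v (mem_cls.mp (h2 hv))⟩
      omega
    have h7 : #F = ∑ c ∈ F.image (fun e : D => col e), #(F.filter fun e : D => col e = c) :=
      Finset.card_eq_sum_card_image _ _
    have h8 : 3 * #F ≤ ∑ v ∈ W, #(L v) := by
      rw [h7, Finset.mul_sum]
      exact (Finset.sum_le_sum fun c _ => h1 c).trans (sum_card_cls_le L W _)
    have h9 : ∑ v ∈ W, #(L v) = 3 * #W := by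
      simp [hL, mul_comm]
    omega
  obtain ⟨f, hfinj, hf⟩ := hall
  -- Step 6: the colouring
  have hch : ∀ v, ∃ c ∈ L' v, ∀ e : D, f e = v → col e ≠ c := by
    intro v
    by_cases hv : ∃ e : D, f e = v
    · obtain ⟨e₀, he₀⟩ := hv
      obtain ⟨a, ha, b, hb, hab⟩ := Finset.one_lt_card.mp (show 1 < #(L' v) from hL'card v)
      have huni : ∀ e : D, f e = v → e = e₀ := fun e he => hfinj (he.trans he₀.symm)
      by_cases hca : col e₀ = a
      · refine ⟨b, hb, fun e he => ?_⟩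
        rw [huni e he, hca]
        exact hab
      · refine ⟨a, ha, fun e he => ?_⟩
        rw [huni e he]
        exact hca
    · push Not at hv
      obtain ⟨a, ha⟩ := Finset.card_pos.mp (show 0 < #(L' v) from lt_of_lt_of_le two_pos (hL'card v))
      exact ⟨a, ha, fun e he => absurd he (hv e)⟩
  choose φ hφ1 hφ2 using hch
  refine ⟨φ, fun v => hL'sub v (hφ1 v), ?_⟩
  rintro e he ⟨c, hc⟩
  have hec : e ⊆ cls L' c := by
    intro v hv
    rw [mem_cls, ← hc v hv]
    exact hφ1 v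
  have heD : e ∈ D := Finset.mem_filter.mpr ⟨he, c, hec⟩
  have hcolc : col e = c := huniq e he _ _ (hcol e heD) hec
  have h1 := hφ2 (f ⟨e, heD⟩) ⟨e, heD⟩ rfl
  have h2 := hc (f ⟨e, heD⟩) (hf ⟨e, heD⟩)
  exact h1 (by rw [h2]; exact hcolc)

/-! ### Random transversal edges -/

lemma card_transversals_le {r N : ℕ} (T : Finset (Fin r × Fin N)) :
    #{x : Fin r → Fin N | ∀ a, (a, x a) ∈ T} ≤ #T ^ r := by
  classical
  calc #{x : Fin r → Fin N | ∀ a, (a, x a) ∈ T}
      ≤ #(Fintype.piFinset fun _ : Fin r => T) := by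
        apply Finset.card_le_card_of_injOn (fun x a => (a, x a))
        · intro x hx
          simp only [Finset.coe_filter, Finset.mem_univ, true_and, Set.mem_ofPred_eq] at hx
          simpa using hx
        · intro x _ y _ hxy
          funext a
          have := congrFun hxy a
          simpa using this
    _ = #T ^ r := by simp

lemma card_event_le {r N M : ℕ} (T : Finset (Fin r × Fin N)) (J : Finset (Fin M)) :
    (#{ω : Fin M → Fin r → Fin N | ∀ i ∈ J, ∀ a, (a, ω i a) ∈ T} : ℝ) ≤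
      ((#T : ℝ) ^ r) ^ #J * ((N : ℝ) ^ r) ^ (M - #J) := by
  classical
  have h : ({ω : Fin M → Fin r → Fin N | ∀ i ∈ J, ∀ a, (a, ω i a) ∈ T} :
      Finset (Fin M → Fin r → Fin N)) ⊆
      Fintype.piFinset fun i => if i ∈ J then
        ({x : Fin r → Fin N | ∀ a, (a, x a) ∈ T} : Finset (Fin r → Fin N)) else Finset.univ := by
    intro ω hω
    rw [Fintype.mem_piFinset]
    intro i
    by_cases hi : i ∈ J
    · simp only [hi, if_true, Finset.mem_filter, Finset.mem_univ, true_and]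
      exact (Finset.mem_filter.mp hω).2 i hi
    · simp [hi]
  have h2 := Finset.card_le_card h
  rw [Fintype.card_piFinset] at h2
  have h3 : ∏ i : Fin M, #(if i ∈ J then
        ({x : Fin r → Fin N | ∀ a, (a, x a) ∈ T} : Finset (Fin r → Fin N)) else Finset.univ)
      ≤ (#T ^ r) ^ #J * (N ^ r) ^ (M - #J) := by
    have h4 : ∀ i : Fin M, #(if i ∈ J then
        ({x : Fin r → Fin N | ∀ a, (a, x a) ∈ T} : Finset (Fin r → Fin N)) else Finset.univ)
        ≤ if i ∈ J then #T ^ r else N ^ r := by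
      intro i
      by_cases hi : i ∈ J
      · simp only [hi, if_true]
        exact card_transversals_le T
      · simp [hi]
    refine (Finset.prod_le_prod' fun i _ => h4 i).trans ?_
    rw [Finset.prod_ite]
    simp only [Finset.prod_const]
    have e1 : #{i : Fin M | i ∈ J} = #J := by simp
    have e2 : #{i : Fin M | i ∉ J} = M - #J := by
      rw [Finset.filter_not, Finset.card_sdiff_of_subset (Finset.filter_subset _ _)]
      simp
    rw [e1, e2]
  exact_mod_cast h2.trans h3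

/-- Coincidences between two rows in two columns have density at most `1 / N ^ 2`. -/
lemma card_coincidence_le {r N M : ℕ} {i j : Fin M} (hij : i ≠ j) {a b : Fin r} (hab : a ≠ b) :
    #{ω : Fin M → Fin r → Fin N | ω i a = ω j a ∧ ω i b = ω j b} * N ^ 2 ≤
      Fintype.card (Fin M → Fin r → Fin N) := by
  classical
  have h : #(({ω : Fin M → Fin r → Fin N | ω i a = ω j a ∧ ω i b = ω j b} :
      Finset (Fin M → Fin r → Fin N)) ×ˢ (Finset.univ : Finset (Fin N × Fin N))) ≤
      #(Finset.univ : Finset (Fin M → Fin r → Fin N)) := by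
    apply Finset.card_le_card_of_injOn
      (fun p => Function.update p.1 j (Function.update (Function.update (p.1 j) a p.2.1) b p.2.2))
      (fun _ _ => Finset.mem_coe.mpr (Finset.mem_univ _))
    rintro ⟨ω, y, z⟩ hω ⟨ω', y', z'⟩ hω' heq
    simp only [Finset.coe_product, Finset.coe_filter, Finset.mem_univ, true_and,
      Finset.coe_univ, Set.mem_prod, Set.mem_ofPred_eq, Set.mem_univ, and_true] at hω hω'
    simp only at heq
    have hrow : ∀ k, k ≠ j → ω k = ω' k := by
      intro k hk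
      have := congrFun heq k
      simpa [Function.update_of_ne hk] using this
    have hj := congrFun heq j
    simp only [Function.update_self] at hj
    have hy : y = y' := by
      have := congrFun hj a
      simpa [Function.update_of_ne hab] using this
    have hz : z = z' := by
      have := congrFun hj b
      simpa using this
    have hωω : ω = ω' := by
      funext k
      by_cases hk : k = j
      · subst hk
        funext c
        by_cases hca : c = a
        · subst hca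
          rw [← hω.1, ← hω'.1, hrow i hij]
        · by_cases hcb : c = b
          · subst hcb
            rw [← hω.2, ← hω'.2, hrow i hij]
          · have := congrFun hj c
            simpa [Function.update_of_ne hca, Function.update_of_ne hcb] using this
      · exact hrow k hk
    rw [hωω, hy, hz]
  rw [Finset.card_product] at h
  simpa [sq] using h

/-- The conflicting quadruples of a family of transversals. -/
def conf {r N M : ℕ} (ω : Fin M → Fin r → Fin N) : Finset ((Fin M × Fin M) × (Fin r × Fin r)) :=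
  {q | q.1.1 ≠ q.1.2 ∧ q.2.1 ≠ q.2.2 ∧ ω q.1.1 q.2.1 = ω q.1.2 q.2.1 ∧
    ω q.1.1 q.2.2 = ω q.1.2 q.2.2}

lemma sum_conf_le {r N M : ℕ} :
    (∑ ω : Fin M → Fin r → Fin N, #(conf ω)) * N ^ 2 ≤
      M ^ 2 * r ^ 2 * Fintype.card (Fin M → Fin r → Fin N) := by
  classical
  have h1 : ∑ ω : Fin M → Fin r → Fin N, #(conf ω) =
      ∑ q : (Fin M × Fin M) × (Fin r × Fin r), #{ω : Fin M → Fin r → Fin N |
        q.1.1 ≠ q.1.2 ∧ q.2.1 ≠ q.2.2 ∧ ω q.1.1 q.2.1 = ω q.1.2 q.2.1 ∧
        ω q.1.1 q.2.2 = ω q.1.2 q.2.2} :=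
    Finset.sum_card_bipartiteAbove_eq_sum_card_bipartiteBelow
      (r := fun (ω : Fin M → Fin r → Fin N) (q : (Fin M × Fin M) × (Fin r × Fin r)) =>
        q.1.1 ≠ q.1.2 ∧ q.2.1 ≠ q.2.2 ∧ ω q.1.1 q.2.1 = ω q.1.2 q.2.1 ∧
        ω q.1.1 q.2.2 = ω q.1.2 q.2.2)
  rw [h1, Finset.sum_mul]
  calc ∑ q : (Fin M × Fin M) × (Fin r × Fin r), #{ω : Fin M → Fin r → Fin N |
        q.1.1 ≠ q.1.2 ∧ q.2.1 ≠ q.2.2 ∧ ω q.1.1 q.2.1 = ω q.1.2 q.2.1 ∧
        ω q.1.1 q.2.2 = ω q.1.2 q.2.2} * N ^ 2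
      ≤ ∑ q : (Fin M × Fin M) × (Fin r × Fin r), Fintype.card (Fin M → Fin r → Fin N) := by
        apply Finset.sum_le_sum
        rintro ⟨⟨i, j⟩, ⟨a, b⟩⟩ _
        by_cases hij : i = j
        · simp [hij]
        · by_cases hab : a = b
          · simp [hab]
          · refine le_trans ?_ (card_coincidence_le (N := N) hij hab)
            apply Nat.mul_le_mul_right
            apply Finset.card_le_card
            intro ω hω
            have := (Finset.mem_filter.mp hω).2
            exact Finset.mem_filter.mpr ⟨Finset.mem_univ _, this.2.2⟩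
    _ = M ^ 2 * r ^ 2 * Fintype.card (Fin M → Fin r → Fin N) := by
        rw [Finset.sum_const, Finset.card_univ, smul_eq_mul]
        simp only [Fintype.card_prod, Fintype.card_fin]
        ring

lemma exists_good {r N M s : ℕ} (hr : 1 ≤ r) (hN : 0 < N) (hM : 0 < M)
    (hMN : 4 * M * r ^ 2 ≤ N ^ 2)
    (hρ : ((r : ℝ) * N) ^ 3 * M * ((s : ℝ) / N) ^ r * (s + 1) < 1 / 2) :
    ∃ ω : Fin M → Fin r → Fin N, 2 * #(conf ω) ≤ M ∧
      ∀ T : Finset (Fin r × Fin N), #T ≤ s → 3 * #{i : Fin M | ∀ a, (a, ω i a) ∈ T} ≤ #T := by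
  classical
  set Ω := Fin M → Fin r → Fin N with hΩ
  have hΩcard : (Fintype.card Ω : ℝ) = ((N : ℝ) ^ r) ^ M := by
    simp [hΩ]
  have hNR : (0 : ℝ) < N := by exact_mod_cast hN
  have hΩpos : (0 : ℝ) < Fintype.card Ω := by rw [hΩcard]; positivity
  set ρ : ℝ := ((r : ℝ) * N) ^ 3 * M * ((s : ℝ) / N) ^ r with hρdef
  have hρ0 : 0 ≤ ρ := by positivity
  have hρ1 : ρ ≤ 1 := by
    have h1 : (1 : ℝ) ≤ s + 1 := by
      have : (0 : ℝ) ≤ s := Nat.cast_nonneg _
      linarith
    nlinarith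
  -- the locally dense configurations
  set Bad₁ : Finset Ω := (Finset.range (s + 1)).biUnion fun t =>
    (Finset.powersetCard t (Finset.univ : Finset (Fin r × Fin N))).biUnion fun T =>
      (Finset.powersetCard (t / 3 + 1) (Finset.univ : Finset (Fin M))).biUnion fun J =>
        {ω : Fin M → Fin r → Fin N | ∀ i ∈ J, ∀ a, (a, ω i a) ∈ T} with hBad₁
  have hev : ∀ t ∈ Finset.range (s + 1), ∀ T ∈ Finset.powersetCard t
      (Finset.univ : Finset (Fin r × Fin N)), ∀ J ∈ Finset.powersetCard (t / 3 + 1)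
      (Finset.univ : Finset (Fin M)),
      (#{ω : Fin M → Fin r → Fin N | ∀ i ∈ J, ∀ a, (a, ω i a) ∈ T} : ℝ) ≤
        Fintype.card Ω * (((s : ℝ) / N) ^ r) ^ (t / 3 + 1) := by
    intro t ht T hT J hJ
    rw [Finset.mem_powersetCard] at hT hJ
    rw [Finset.mem_range] at ht
    have hu : t / 3 + 1 ≤ M := by
      rw [← hJ.2]
      simpa using Finset.card_le_univ J
    refine (card_event_le T J).trans ?_
    rw [hJ.2, hT.2, hΩcard]
    have e1 : ((N : ℝ) ^ r) ^ M = ((N : ℝ) ^ r) ^ (M - (t / 3 + 1)) * ((N : ℝ) ^ r) ^ (t / 3 + 1) := by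
      rw [← pow_add]
      congr 1
      omega
    rw [e1, mul_assoc, ← mul_pow, ← mul_pow, mul_div_cancel₀ _ hNR.ne', mul_comm]
    have hts : (t : ℝ) ≤ s := by exact_mod_cast Nat.lt_succ_iff.mp ht
    gcongr
  have hB1 : (#Bad₁ : ℝ) < Fintype.card Ω / 2 := by
    have h1 : (#Bad₁ : ℝ) ≤ ∑ t ∈ Finset.range (s + 1),
        ∑ T ∈ Finset.powersetCard t (Finset.univ : Finset (Fin r × Fin N)),
          ∑ J ∈ Finset.powersetCard (t / 3 + 1) (Finset.univ : Finset (Fin M)),
            (#{ω : Fin M → Fin r → Fin N | ∀ i ∈ J, ∀ a, (a, ω i a) ∈ T} : ℝ) := by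
      have : #Bad₁ ≤ ∑ t ∈ Finset.range (s + 1),
        ∑ T ∈ Finset.powersetCard t (Finset.univ : Finset (Fin r × Fin N)),
          ∑ J ∈ Finset.powersetCard (t / 3 + 1) (Finset.univ : Finset (Fin M)),
            #{ω : Fin M → Fin r → Fin N | ∀ i ∈ J, ∀ a, (a, ω i a) ∈ T} := by
        refine Finset.card_biUnion_le.trans (Finset.sum_le_sum fun t _ => ?_)
        refine Finset.card_biUnion_le.trans (Finset.sum_le_sum fun T _ => ?_)
        exact Finset.card_biUnion_le
      exact_mod_cast this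
    have h2 : ∀ t ∈ Finset.range (s + 1),
        ∑ T ∈ Finset.powersetCard t (Finset.univ : Finset (Fin r × Fin N)),
          ∑ J ∈ Finset.powersetCard (t / 3 + 1) (Finset.univ : Finset (Fin M)),
            (#{ω : Fin M → Fin r → Fin N | ∀ i ∈ J, ∀ a, (a, ω i a) ∈ T} : ℝ) ≤
          Fintype.card Ω * ρ := by
      intro t ht
      calc ∑ T ∈ Finset.powersetCard t (Finset.univ : Finset (Fin r × Fin N)),
          ∑ J ∈ Finset.powersetCard (t / 3 + 1) (Finset.univ : Finset (Fin M)),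
            (#{ω : Fin M → Fin r → Fin N | ∀ i ∈ J, ∀ a, (a, ω i a) ∈ T} : ℝ)
          ≤ ∑ T ∈ Finset.powersetCard t (Finset.univ : Finset (Fin r × Fin N)),
            ∑ J ∈ Finset.powersetCard (t / 3 + 1) (Finset.univ : Finset (Fin M)),
              (Fintype.card Ω * (((s : ℝ) / N) ^ r) ^ (t / 3 + 1)) :=
            Finset.sum_le_sum fun T hT => Finset.sum_le_sum fun J hJ => hev t ht T hT J hJ
        _ = ((r * N).choose t : ℝ) * ((M.choose (t / 3 + 1) : ℝ) *
              (Fintype.card Ω * (((s : ℝ) / N) ^ r) ^ (t / 3 + 1))) := by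
            simp only [Finset.sum_const, Finset.card_powersetCard, Finset.card_univ,
              Fintype.card_prod, Fintype.card_fin, nsmul_eq_mul]
        _ ≤ ((((r : ℝ) * N) ^ 3) ^ (t / 3 + 1)) * (((M : ℝ) ^ (t / 3 + 1)) *
              (Fintype.card Ω * (((s : ℝ) / N) ^ r) ^ (t / 3 + 1))) := by
            have hrN : (1 : ℝ) ≤ (r : ℝ) * N := by
              have : 1 ≤ r * N := Nat.mul_pos hr hN
              exact_mod_cast this
            have c1 : ((r * N).choose t : ℝ) ≤ (((r : ℝ) * N) ^ 3) ^ (t / 3 + 1) := by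
              calc ((r * N).choose t : ℝ) ≤ ((r * N : ℕ) : ℝ) ^ t := by
                    exact_mod_cast Nat.choose_le_pow _ _
                _ = ((r : ℝ) * N) ^ t := by push_cast; ring
                _ ≤ ((r : ℝ) * N) ^ (3 * (t / 3 + 1)) := by
                    apply pow_le_pow_right₀ hrN
                    omega
                _ = _ := by rw [pow_mul]
            have c2 : (M.choose (t / 3 + 1) : ℝ) ≤ (M : ℝ) ^ (t / 3 + 1) := by
              exact_mod_cast Nat.choose_le_pow _ _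
            gcongr
        _ = Fintype.card Ω * ρ ^ (t / 3 + 1) := by
            rw [hρdef, mul_pow, mul_pow]
            ring
        _ ≤ Fintype.card Ω * ρ := by
            apply mul_le_mul_of_nonneg_left _ hΩpos.le
            exact pow_le_of_le_one hρ0 hρ1 (Nat.succ_ne_zero _)
    calc (#Bad₁ : ℝ) ≤ ∑ t ∈ Finset.range (s + 1), (Fintype.card Ω * ρ) :=
          h1.trans (Finset.sum_le_sum h2)
      _ = Fintype.card Ω * (ρ * (s + 1)) := by
          simp only [Finset.sum_const, Finset.card_range, nsmul_eq_mul]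
          push_cast
          ring
      _ < Fintype.card Ω * (1 / 2) := by
          apply mul_lt_mul_of_pos_left hρ hΩpos
      _ = Fintype.card Ω / 2 := by ring
  -- too many conflicts
  set Bad₂ : Finset Ω := {ω : Fin M → Fin r → Fin N | M < 2 * #(conf ω)} with hBad₂
  have hB2 : 2 * #Bad₂ ≤ Fintype.card Ω := by
    have h1 := sum_conf_le (r := r) (N := N) (M := M)
    have h2 : 4 * ∑ ω : Fin M → Fin r → Fin N, #(conf ω) ≤ M * Fintype.card Ω := by
      have h3 : (4 * ∑ ω : Fin M → Fin r → Fin N, #(conf ω)) * N ^ 2 ≤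
          (M * Fintype.card Ω) * N ^ 2 := by
        calc (4 * ∑ ω : Fin M → Fin r → Fin N, #(conf ω)) * N ^ 2
            = 4 * ((∑ ω : Fin M → Fin r → Fin N, #(conf ω)) * N ^ 2) := by ring
          _ ≤ 4 * (M ^ 2 * r ^ 2 * Fintype.card Ω) := Nat.mul_le_mul_left _ h1
          _ = (M * Fintype.card Ω) * (4 * M * r ^ 2) := by ring
          _ ≤ (M * Fintype.card Ω) * N ^ 2 := Nat.mul_le_mul_left _ hMN
      exact Nat.le_of_mul_le_mul_right h3 (by positivity)
    have h4 : #Bad₂ * M ≤ 2 * ∑ ω : Fin M → Fin r → Fin N, #(conf ω) := by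
      calc #Bad₂ * M = ∑ ω ∈ Bad₂, M := by simp
        _ ≤ ∑ ω ∈ Bad₂, 2 * #(conf ω) := by
            apply Finset.sum_le_sum
            intro ω hω
            exact (Finset.mem_filter.mp hω).2.le
        _ ≤ ∑ ω : Fin M → Fin r → Fin N, 2 * #(conf ω) :=
            Finset.sum_le_univ_sum_of_nonneg fun _ => Nat.zero_le _
        _ = _ := by rw [Finset.mul_sum]
    have h5 : (2 * #Bad₂) * M ≤ Fintype.card Ω * M := by
      calc (2 * #Bad₂) * M = 2 * (#Bad₂ * M) := by ring
        _ ≤ 2 * (2 * ∑ ω : Fin M → Fin r → Fin N, #(conf ω)) := Nat.mul_le_mul_left _ h4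
        _ = 4 * ∑ ω : Fin M → Fin r → Fin N, #(conf ω) := by ring
        _ ≤ M * Fintype.card Ω := h2
        _ = _ := by ring
    exact Nat.le_of_mul_le_mul_right h5 hM
  have hlt : #(Bad₁ ∪ Bad₂) < #(Finset.univ : Finset Ω) := by
    have h1 := Finset.card_union_le Bad₁ Bad₂
    rw [Finset.card_univ]
    have h2 : (#(Bad₁ ∪ Bad₂) : ℝ) < Fintype.card Ω := by
      have h3 : (#(Bad₁ ∪ Bad₂) : ℝ) ≤ #Bad₁ + #Bad₂ := by exact_mod_cast h1
      have h4 : (2 : ℝ) * #Bad₂ ≤ Fintype.card Ω := by exact_mod_cast hB2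
      linarith
    exact_mod_cast h2
  obtain ⟨ω, _, hω⟩ := Finset.exists_mem_notMem_of_card_lt_card hlt
  rw [Finset.mem_union, not_or] at hω
  refine ⟨ω, ?_, ?_⟩
  · by_contra hcon
    push Not at hcon
    exact hω.2 (Finset.mem_filter.mpr ⟨Finset.mem_univ _, hcon⟩)
  · intro T hT
    by_contra hcon
    push Not at hcon
    apply hω.1
    have hu : #T / 3 + 1 ≤ #{i : Fin M | ∀ a, (a, ω i a) ∈ T} := by omega
    obtain ⟨J, hJ1, hJ2⟩ := Finset.exists_subset_card_eq hu
    refine Finset.mem_biUnion.mpr ⟨#T, Finset.mem_range.mpr (Nat.lt_succ_iff.mpr hT), ?_⟩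
    refine Finset.mem_biUnion.mpr ⟨T, Finset.mem_powersetCard.mpr ⟨Finset.subset_univ _, rfl⟩, ?_⟩
    refine Finset.mem_biUnion.mpr ⟨J, Finset.mem_powersetCard.mpr ⟨Finset.subset_univ _, hJ2⟩, ?_⟩
    refine Finset.mem_filter.mpr ⟨Finset.mem_univ _, fun i hi => ?_⟩
    exact (Finset.mem_filter.mp (hJ1 hi)).2

/-! ### The main hypergraph -/

/-- The transversal edge of a function. -/
def edgeOf {r N : ℕ} (x : Fin r → Fin N) : Finset (Fin r × Fin N) :=
  Finset.univ.map ⟨fun a => (a, x a), fun _ _ h => (Prod.mk.inj h).1⟩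

lemma mem_edgeOf {r N : ℕ} {x : Fin r → Fin N} {v : Fin r × Fin N} :
    v ∈ edgeOf x ↔ x v.1 = v.2 := by
  unfold edgeOf
  simp only [Finset.mem_map, Finset.mem_univ, true_and]
  constructor
  · rintro ⟨a, rfl⟩
    rfl
  · intro h
    exact ⟨v.1, Prod.ext rfl h⟩

lemma card_edgeOf {r N : ℕ} (x : Fin r → Fin N) : #(edgeOf x) = r := by
  simp [edgeOf]

lemma rho_bound (r : ℕ) (hr : 18 ≤ r) (R k P : ℝ) (hR : 1 ≤ R) (hk : 1 ≤ k) (hP : 1 ≤ P)
    (h : 32768 * R ^ 16 * k ^ (r + 1) < P) :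
    (R * (8 * R ^ 3 * P ^ 3)) ^ 3 * (16 * R ^ 4 * P ^ 6) *
      ((k * P ^ 2) / (8 * R ^ 3 * P ^ 3)) ^ r * (k * P ^ 2 + 1) < 1 / 2 := by
  have hP0 : (0 : ℝ) < P := by linarith
  have h1 : (k * P ^ 2) / (8 * R ^ 3 * P ^ 3) ≤ k / P := by
    rw [div_le_div_iff₀ (by positivity) hP0]
    have h2 : (1 : ℝ) ≤ 8 * R ^ 3 := by
      have : (1 : ℝ) ≤ R ^ 3 := one_le_pow₀ hR
      linarith
    calc k * P ^ 2 * P = k * P ^ 3 * 1 := by ring
      _ ≤ k * P ^ 3 * (8 * R ^ 3) := by gcongr
      _ = k * (8 * R ^ 3 * P ^ 3) := by ring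
  have h3 : ((k * P ^ 2) / (8 * R ^ 3 * P ^ 3)) ^ r ≤ (k / P) ^ r := by
    gcongr
  have h4 : k * P ^ 2 + 1 ≤ 2 * k * P ^ 2 := by
    have : (1 : ℝ) ≤ k * P ^ 2 := by
      have : (1 : ℝ) ≤ P ^ 2 := one_le_pow₀ hP
      nlinarith
    linarith
  calc (R * (8 * R ^ 3 * P ^ 3)) ^ 3 * (16 * R ^ 4 * P ^ 6) *
      ((k * P ^ 2) / (8 * R ^ 3 * P ^ 3)) ^ r * (k * P ^ 2 + 1)
      ≤ (R * (8 * R ^ 3 * P ^ 3)) ^ 3 * (16 * R ^ 4 * P ^ 6) *
        (k / P) ^ r * (2 * k * P ^ 2) := by gcongr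
    _ = 16384 * R ^ 16 * k ^ (r + 1) * (P ^ 17 / P ^ r) := by
        rw [div_pow]
        ring
    _ ≤ 16384 * R ^ 16 * k ^ (r + 1) * (1 / P) := by
        apply mul_le_mul_of_nonneg_left _ (by positivity)
        rw [div_le_div_iff₀ (by positivity) hP0, one_mul, ← pow_succ]
        exact pow_le_pow_right₀ hP hr
    _ < 1 / 2 := by
        rw [mul_one_div, div_lt_div_iff₀ hP0 (by norm_num)]
        linarith

lemma exists_main {r K : ℕ} (hr : 18 ≤ r) (hK : 1 ≤ K) (p : ℕ)
    (hp : 32768 * r ^ 16 * K ^ (r + 1) < p) :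
    ∃ E₀ : Finset (Finset (Fin r × Fin (8 * r ^ 3 * p ^ 3))),
      (∀ e ∈ E₀, ∃ x, e = edgeOf x) ∧ IsLinear E₀ ∧ 16 * r ^ 4 * p ^ 6 ≤ 2 * #E₀ ∧
      ∀ T : Finset (Fin r × Fin (8 * r ^ 3 * p ^ 3)), #T ≤ K * p ^ 2 →
        3 * #{e ∈ E₀ | e ⊆ T} ≤ #T := by
  classical
  have hp0 : 0 < p := by omega
  have hr0 : 0 < r := by omega
  have hN : 0 < 8 * r ^ 3 * p ^ 3 := by positivity
  have hM : 0 < 16 * r ^ 4 * p ^ 6 := by positivity
  have hMN : 4 * (16 * r ^ 4 * p ^ 6) * r ^ 2 ≤ (8 * r ^ 3 * p ^ 3) ^ 2 := by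
    apply le_of_eq; ring
  have hρ : ((r : ℝ) * (8 * r ^ 3 * p ^ 3 : ℕ)) ^ 3 * (16 * r ^ 4 * p ^ 6 : ℕ) *
      (((K * p ^ 2 : ℕ) : ℝ) / (8 * r ^ 3 * p ^ 3 : ℕ)) ^ r * ((K * p ^ 2 : ℕ) + 1) < 1 / 2 := by
    have hpR : (1 : ℝ) ≤ p := by exact_mod_cast hp0
    have hrR : (1 : ℝ) ≤ r := by exact_mod_cast hr0
    have hKR : (1 : ℝ) ≤ K := by exact_mod_cast hK
    have hpp : (32768 : ℝ) * r ^ 16 * K ^ (r + 1) < p := by exact_mod_cast hp
    have := rho_bound r hr r K p hrR hKR hpR hpp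
    push_cast
    exact this
  obtain ⟨ω, hω1, hω2⟩ := exists_good (by omega) hN hM hMN hρ
  set I : Finset (Fin (16 * r ^ 4 * p ^ 6)) :=
    {j | ∀ i < j, ¬ ∃ a b, a ≠ b ∧ ω i a = ω j a ∧ ω i b = ω j b} with hI
  have hconf : ∀ i ∈ I, ∀ j ∈ I, i ≠ j → ¬ ∃ a b, a ≠ b ∧ ω i a = ω j a ∧ ω i b = ω j b := by
    intro i hi j hj hij
    rcases lt_or_gt_of_ne hij with h | h
    · exact (Finset.mem_filter.mp hj).2 i h
    · rintro ⟨a, b, hab, h1, h2⟩
      exact (Finset.mem_filter.mp hi).2 j h ⟨a, b, hab, h1.symm, h2.symm⟩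
  have hlin : ∀ i ∈ I, ∀ j ∈ I, ∀ u v : Fin r × Fin (8 * r ^ 3 * p ^ 3), u ≠ v →
      u ∈ edgeOf (ω i) → v ∈ edgeOf (ω i) → u ∈ edgeOf (ω j) → v ∈ edgeOf (ω j) → i = j := by
    intro i hi j hj u v huv h1 h2 h3 h4
    by_contra hij
    rw [mem_edgeOf] at h1 h2 h3 h4
    refine hconf i hi j hj hij ⟨u.1, v.1, ?_, h1.trans h3.symm, h2.trans h4.symm⟩
    intro hne
    apply huv
    refine Prod.ext hne ?_
    rw [← h1, ← h2, hne]
  have hinj : Set.InjOn (fun i => edgeOf (ω i)) (I : Set (Fin (16 * r ^ 4 * p ^ 6))) := by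
    intro i hi j hj hij
    have h0 : (⟨0, by omega⟩ : Fin r) ≠ ⟨1, by omega⟩ := by
      intro h; simp at h
    simp only at hij
    refine hlin i hi j hj (⟨0, by omega⟩, ω i ⟨0, by omega⟩) (⟨1, by omega⟩, ω i ⟨1, by omega⟩)
      ?_ ?_ ?_ ?_ ?_
    · intro h; exact h0 (Prod.mk.inj h).1
    · exact mem_edgeOf.mpr rfl
    · exact mem_edgeOf.mpr rfl
    · rw [← hij]; exact mem_edgeOf.mpr rfl
    · rw [← hij]; exact mem_edgeOf.mpr rfl
  refine ⟨I.image fun i => edgeOf (ω i), ?_, ?_, ?_, ?_⟩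
  · intro e he
    obtain ⟨i, _, rfl⟩ := Finset.mem_image.mp he
    exact ⟨ω i, rfl⟩
  · intro u v huv e he f hf h1 h2 h3 h4
    obtain ⟨i, hi, rfl⟩ := Finset.mem_image.mp he
    obtain ⟨j, hj, rfl⟩ := Finset.mem_image.mp hf
    rw [hlin i hi j hj u v huv h1 h2 h3 h4]
  · rw [Finset.card_image_of_injOn hinj]
    have h1 : #(Finset.univ \ I) ≤ #(conf ω) := by
      have hex : ∀ j : Fin (16 * r ^ 4 * p ^ 6), ∃ q : (Fin (16 * r ^ 4 * p ^ 6) × (Fin r × Fin r)),
          j ∉ I → ((q.1, j), q.2) ∈ conf ω := by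
        intro j
        by_cases hj : j ∈ I
        · exact ⟨(j, (⟨0, by omega⟩, ⟨0, by omega⟩)), fun h => absurd hj h⟩
        · have hj2 : ¬ ∀ i < j, ¬ ∃ a b, a ≠ b ∧ ω i a = ω j a ∧ ω i b = ω j b := by
            simpa [hI] using hj
          push Not at hj2
          obtain ⟨i, hij, a, b, hab, h1, h2⟩ := hj2
          exact ⟨(i, (a, b)), fun _ => Finset.mem_filter.mpr
            ⟨Finset.mem_univ _, hij.ne, hab, h1, h2⟩⟩
      choose q hq using hex
      apply Finset.card_le_card_of_injOn (fun j => (((q j).1, j), (q j).2))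
      · intro j hj
        rw [Finset.mem_coe, Finset.mem_sdiff] at hj
        exact hq j hj.2
      · intro j _ j' _ hjj
        exact congrArg (fun z => z.1.2) hjj
    have h2 := Finset.card_sdiff_add_card_eq_card (Finset.subset_univ I)
    rw [Finset.card_univ, Fintype.card_fin] at h2
    omega
  · intro T hT
    have h1 : #{e ∈ I.image fun i => edgeOf (ω i) | e ⊆ T} ≤
        #{i : Fin (16 * r ^ 4 * p ^ 6) | ∀ a, (a, ω i a) ∈ T} := by
      have : ({e ∈ I.image fun i => edgeOf (ω i) | e ⊆ T} : Finset _) ⊆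
          ({i : Fin (16 * r ^ 4 * p ^ 6) | ∀ a, (a, ω i a) ∈ T} : Finset _).image
            (fun i => edgeOf (ω i)) := by
        intro e he
        obtain ⟨he1, he2⟩ := Finset.mem_filter.mp he
        obtain ⟨i, _, rfl⟩ := Finset.mem_image.mp he1
        refine Finset.mem_image.mpr ⟨i, Finset.mem_filter.mpr ⟨Finset.mem_univ _, ?_⟩, rfl⟩
        intro a
        exact he2 (mem_edgeOf.mpr rfl)
      exact (Finset.card_le_card this).trans Finset.card_image_le
    have h2 := hω2 T hT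
    omega


/-! ### The final hypergraph: auxiliary edges make clusters into cliques of the shadow -/

/-- Pairs of distinct vertices of the main part in the same cluster: same group, same residue
modulo `g`. -/
abbrev Aux (r N g : ℕ) : Type :=
  {t : Fin r × Fin N × Fin N // t.2.1 < t.2.2 ∧ t.2.1.val % g = t.2.2.val % g}

/-- The vertices: the main vertices and `r - 2` private vertices for each auxiliary pair. -/
abbrev Vtx (r N g : ℕ) : Type := (Fin r × Fin N) ⊕ (Aux r N g × Fin (r - 2))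

/-- The auxiliary edge of a pair. -/
def auxEdge {r N g : ℕ} (t : Aux r N g) : Finset (Vtx r N g) :=
  {Sum.inl (t.1.1, t.1.2.1), Sum.inl (t.1.1, t.1.2.2)} ∪
    Finset.univ.image (fun i : Fin (r - 2) => Sum.inr (t, i))

lemma inl_mem_auxEdge {r N g : ℕ} {t : Aux r N g} {v : Fin r × Fin N} :
    (Sum.inl v : Vtx r N g) ∈ auxEdge t ↔ v = (t.1.1, t.1.2.1) ∨ v = (t.1.1, t.1.2.2) := by
  simp [auxEdge]

lemma inr_mem_auxEdge {r N g : ℕ} {t : Aux r N g} {w : Aux r N g × Fin (r - 2)} :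
    (Sum.inr w : Vtx r N g) ∈ auxEdge t ↔ w.1 = t := by
  obtain ⟨t', i⟩ := w
  simp [auxEdge, eq_comm]

lemma card_auxEdge {r N g : ℕ} (hr : 2 ≤ r) (t : Aux r N g) : #(auxEdge t) = r := by
  unfold auxEdge
  rw [Finset.card_union_of_disjoint]
  · rw [Finset.card_pair, Finset.card_image_of_injective]
    · simp; omega
    · intro i j h
      simpa using h
    · intro h
      have h1 := t.2.1
      simp only [Sum.inl.injEq, Prod.mk.injEq, true_and] at h
      rw [h] at h1
      exact lt_irrefl _ h1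
  · rw [Finset.disjoint_left]
    intro x hx hx'
    obtain ⟨i, _, rfl⟩ := Finset.mem_image.mp hx'
    simp at hx

/-- The edge set of the final hypergraph. -/
def allEdges {r N : ℕ} (g : ℕ) (E₀ : Finset (Finset (Fin r × Fin N))) :
    Finset (Finset (Vtx r N g)) :=
  E₀.image (fun e => e.map Function.Embedding.inl) ∪ Finset.univ.image auxEdge

lemma mem_allEdges {r N g : ℕ} {E₀ : Finset (Finset (Fin r × Fin N))}
    {e : Finset (Vtx r N g)} :
    e ∈ allEdges g E₀ ↔ (∃ e₀ ∈ E₀, e₀.map Function.Embedding.inl = e) ∨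
      ∃ t : Aux r N g, auxEdge t = e := by
  simp [allEdges]

lemma allEdges_uniform {r N g : ℕ} (hr : 2 ≤ r) {E₀ : Finset (Finset (Fin r × Fin N))}
    (hE₀ : ∀ e ∈ E₀, ∃ x, e = edgeOf x) : IsUniform r (allEdges g E₀) := by
  intro e he
  rcases mem_allEdges.mp he with ⟨e₀, he₀, rfl⟩ | ⟨t, rfl⟩
  · obtain ⟨x, rfl⟩ := hE₀ e₀ he₀
    rw [Finset.card_map, card_edgeOf]
  · exact card_auxEdge hr t

lemma main_aux_disjoint {r N g : ℕ} {e₀ : Finset (Fin r × Fin N)} (hx : ∃ x, e₀ = edgeOf x)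
    {t : Aux r N g} {u v : Vtx r N g} (huv : u ≠ v)
    (h1 : u ∈ e₀.map Function.Embedding.inl) (h2 : v ∈ e₀.map Function.Embedding.inl)
    (h3 : u ∈ auxEdge t) (h4 : v ∈ auxEdge t) : False := by
  obtain ⟨x, rfl⟩ := hx
  obtain ⟨u', hu', rfl⟩ := Finset.mem_map.mp h1
  obtain ⟨v', hv', rfl⟩ := Finset.mem_map.mp h2
  have h3' := inl_mem_auxEdge.mp h3
  have h4' := inl_mem_auxEdge.mp h4
  rw [mem_edgeOf] at hu' hv'
  have e1 : u'.1 = t.1.1 := by rcases h3' with h | h <;> rw [h]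
  have e2 : v'.1 = t.1.1 := by rcases h4' with h | h <;> rw [h]
  apply huv
  have e3 : u' = v' := by
    refine Prod.ext (e1.trans e2.symm) ?_
    rw [← hu', ← hv', e1, e2]
  rw [e3]

lemma allEdges_linear {r N g : ℕ} {E₀ : Finset (Finset (Fin r × Fin N))}
    (hE₀ : ∀ e ∈ E₀, ∃ x, e = edgeOf x) (hlin : IsLinear E₀) : IsLinear (allEdges g E₀) := by
  intro u v huv e he f hf h1 h2 h3 h4
  rcases mem_allEdges.mp he with ⟨e₀, he₀, rfl⟩ | ⟨t, rfl⟩
  · rcases mem_allEdges.mp hf with ⟨f₀, hf₀, rfl⟩ | ⟨t', rfl⟩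
    · obtain ⟨u', hu', rfl⟩ := Finset.mem_map.mp h1
      obtain ⟨v', hv', rfl⟩ := Finset.mem_map.mp h2
      rw [Finset.mem_map' Function.Embedding.inl] at h3 h4
      have : e₀ = f₀ := hlin u' v' (fun h => huv (by rw [h])) e₀ he₀ f₀ hf₀ hu' hv' h3 h4
      rw [this]
    · exact (main_aux_disjoint (hE₀ e₀ he₀) huv h1 h2 h3 h4).elim
  · rcases mem_allEdges.mp hf with ⟨f₀, hf₀, rfl⟩ | ⟨t', rfl⟩
    · exact (main_aux_disjoint (hE₀ f₀ hf₀) huv h3 h4 h1 h2).elim
    · have htt : t = t' := by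
        rcases u with u | u
        · rcases v with v | v
          · rw [inl_mem_auxEdge] at h1 h2 h3 h4
            have huv' : u ≠ v := fun h => huv (by rw [h])
            have q1 := t.2.1
            have q2 := t'.2.1
            apply Subtype.ext
            have key : t.1.1 = t'.1.1 ∧ t.1.2.1 = t'.1.2.1 ∧ t.1.2.2 = t'.1.2.2 := by
              rcases h1 with rfl | rfl <;> rcases h2 with rfl | rfl
              · exact absurd rfl huv'
              · simp only [Prod.mk.injEq] at h3 h4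
                rcases h3 with ⟨a1, a2⟩ | ⟨a1, a2⟩ <;> rcases h4 with ⟨b1, b2⟩ | ⟨b1, b2⟩
                · rw [a2, b2] at q1; exact absurd q1 (lt_irrefl _)
                · exact ⟨a1, a2, b2⟩
                · rw [a2, b2] at q1; exact absurd (q1.trans q2) (lt_irrefl _)
                · rw [a2, b2] at q1; exact absurd q1 (lt_irrefl _)
              · simp only [Prod.mk.injEq] at h3 h4
                rcases h3 with ⟨a1, a2⟩ | ⟨a1, a2⟩ <;> rcases h4 with ⟨b1, b2⟩ | ⟨b1, b2⟩
                · rw [a2, b2] at q1; exact absurd q1 (lt_irrefl _)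
                · rw [a2, b2] at q1; exact absurd (q1.trans q2) (lt_irrefl _)
                · exact ⟨a1, b2, a2⟩
                · rw [a2, b2] at q1; exact absurd q1 (lt_irrefl _)
              · exact absurd rfl huv'
            exact Prod.ext key.1 (Prod.ext key.2.1 key.2.2)
          · exact (inr_mem_auxEdge.mp h2).symm.trans (inr_mem_auxEdge.mp h4)
        · exact (inr_mem_auxEdge.mp h1).symm.trans (inr_mem_auxEdge.mp h3)
      rw [htt]

lemma card_aux_le {r N g : ℕ} : Fintype.card (Aux r N g) ≤ r * (N * (N / g + 1)) := by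
  have hlt : ∀ y : Fin N, y.val / g < N / g + 1 := fun y =>
    Nat.lt_succ_of_le (Nat.div_le_div_right y.2.le)
  have h : Function.Injective (fun t : Aux r N g =>
      ((t.1.1, t.1.2.1, (⟨t.1.2.2.val / g, hlt _⟩ : Fin (N / g + 1))) :
        Fin r × Fin N × Fin (N / g + 1))) := by
    rintro ⟨⟨a, y, y'⟩, h1, h2⟩ ⟨⟨b, z, z'⟩, h3, h4⟩ heq
    simp only [Prod.mk.injEq, Fin.mk.injEq] at heq h1 h2 h3 h4
    obtain ⟨rfl, rfl, h5⟩ := heq
    have h6 : y'.val = z'.val := by
      rw [← Nat.div_add_mod y'.val g, ← Nat.div_add_mod z'.val g, h5, ← h2, ← h4]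
    have h7 : y' = z' := Fin.ext h6
    subst h7
    rfl
  have := Fintype.card_le_of_injective _ h
  simpa using this

lemma allEdges_colouring {r N g s : ℕ} (hr : 3 ≤ r) (hg : 0 < g) (hs : 0 < s)
    {E₀ : Finset (Finset (Fin r × Fin N))}
    (hE₀ : ∀ e ∈ E₀, ∃ x, e = edgeOf x)
    (hsparse : ∀ T : Finset (Fin r × Fin N), #T ≤ s → 3 * #{e ∈ E₀ | e ⊆ T} ≤ #T)
    (hnum : 9 * (r * N) ^ 2 * (r * g) ≤ s ^ 3)
    (L : Vtx r N g → Finset ℕ) (hL : ∀ v, 3 ≤ #(L v)) (hsep : IsSeparated (allEdges g E₀) L) :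
    ∃ φ : Vtx r N g → ℕ, IsListColouring L φ ∧ IsProper (allEdges g E₀) φ := by
  classical
  have hsub : ∀ v : Fin r × Fin N, ∃ L' : Finset ℕ, L' ⊆ L (Sum.inl v) ∧ #L' = 3 := fun v =>
    Finset.exists_subset_card_eq (hL _)
  choose L' hL'1 hL'2 using hsub
  have hadj : ∀ u v : Fin r × Fin N, (∃ e ∈ allEdges g E₀, Sum.inl u ∈ e ∧ Sum.inl v ∈ e) →
      u ≠ v → #(L' u ∩ L' v) ≤ 1 := by
    rintro u v ⟨e, he, hu, hv⟩ huv
    have h1 := hsep e he (Sum.inl u) hu (Sum.inl v) hv (fun h => huv (Sum.inl_injective h))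
    exact (Finset.card_le_card (Finset.inter_subset_inter (hL'1 u) (hL'1 v))).trans h1
  obtain ⟨φ₀, hφ₀1, hφ₀2⟩ := exists_colouring (κ := Fin r × Fin g) E₀
    (fun v => (v.1, ⟨v.2.val % g, Nat.mod_lt _ hg⟩)) s hs
    (fun e he => by
      obtain ⟨x, rfl⟩ := hE₀ e he
      rw [card_edgeOf]; omega)
    hsparse (by simpa using hnum) L' hL'2
    (by
      rintro ⟨a, y⟩ ⟨b, z⟩ huv hcl
      simp only [Prod.mk.injEq, Fin.mk.injEq] at hcl
      obtain ⟨rfl, hmod⟩ := hcl
      have hyz : y ≠ z := fun h => huv (by rw [h])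
      apply hadj _ _ _ huv
      rcases lt_or_gt_of_ne hyz with hlt | hlt
      · refine ⟨auxEdge ⟨(a, y, z), hlt, hmod⟩, mem_allEdges.mpr (Or.inr ⟨_, rfl⟩), ?_, ?_⟩
        · exact inl_mem_auxEdge.mpr (Or.inl rfl)
        · exact inl_mem_auxEdge.mpr (Or.inr rfl)
      · refine ⟨auxEdge ⟨(a, z, y), hlt, hmod.symm⟩, mem_allEdges.mpr (Or.inr ⟨_, rfl⟩), ?_, ?_⟩
        · exact inl_mem_auxEdge.mpr (Or.inr rfl)
        · exact inl_mem_auxEdge.mpr (Or.inl rfl))
    (by
      intro e he u hu v hv huv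
      apply hadj u v _ huv
      refine ⟨e.map Function.Embedding.inl, mem_allEdges.mpr (Or.inl ⟨e, he, rfl⟩), ?_, ?_⟩
      · exact Finset.mem_map_of_mem _ hu
      · exact Finset.mem_map_of_mem _ hv)
  have hpriv : ∀ w : Aux r N g × Fin (r - 2), ∃ c ∈ L (Sum.inr w),
      c ≠ φ₀ (w.1.1.1, w.1.1.2.1) := by
    intro w
    obtain ⟨c, hc, hne⟩ := Finset.exists_mem_ne
      (show 1 < #(L (Sum.inr w)) from lt_of_lt_of_le (by norm_num) (hL _))
      (φ₀ (w.1.1.1, w.1.1.2.1))
    exact ⟨c, hc, hne⟩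
  choose ψ hψ1 hψ2 using hpriv
  refine ⟨Sum.elim φ₀ ψ, ?_, ?_⟩
  · rintro (v | w)
    · exact hL'1 v (hφ₀1 v)
    · exact hψ1 w
  · rintro e he ⟨c, hc⟩
    rcases mem_allEdges.mp he with ⟨e₀, he₀, rfl⟩ | ⟨t, rfl⟩
    · apply hφ₀2 e₀ he₀
      refine ⟨c, fun v hv => ?_⟩
      exact hc (Sum.inl v) (Finset.mem_map_of_mem _ hv)
    · have h1 := hc (Sum.inl (t.1.1, t.1.2.1)) (inl_mem_auxEdge.mpr (Or.inl rfl))
      have h2 := hc (Sum.inr (t, ⟨0, by omega⟩)) (inr_mem_auxEdge.mpr rfl)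
      simp only [Sum.elim_inl, Sum.elim_inr] at h1 h2
      exact hψ2 (t, ⟨0, by omega⟩) (h2.trans h1.symm)

/-- The construction: large average degree, separation choice number at most three. -/
lemma exists_hypergraph (r : ℕ) (hr : 18 ≤ r) (D : ℝ) :
    ∃ (V : Type) (_ : Fintype V) (_ : Nonempty V) (E : Finset (Finset V)),
      IsUniform r E ∧ IsLinear E ∧ D ≤ avgDegree r E ∧ chSep E ≤ 3 := by
  classical
  obtain ⟨d, hd⟩ := exists_nat_ge (max D 1)
  have hdD : D ≤ d := (le_max_left _ _).trans hd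
  have hd1 : 1 ≤ d := by exact_mod_cast (le_max_right D 1).trans hd
  set g : ℕ := 16 * r ^ 3 * d with hg
  set K : ℕ := 576 * r ^ 9 * g with hK
  set p : ℕ := 32768 * r ^ 16 * K ^ (r + 1) + 4 * d + 1 with hp
  set N : ℕ := 8 * r ^ 3 * p ^ 3 with hN
  have hr0 : 0 < r := by omega
  have hg0 : 0 < g := by positivity
  have hK0 : 1 ≤ K := by
    have : 0 < K := by positivity
    exact this
  have hp0 : 0 < p := by omega
  have hN0 : 0 < N := by positivity
  obtain ⟨E₀, h1, h2, h3, h4⟩ := exists_main hr hK0 p (by omega)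
  have hne : Nonempty (Vtx r N g) := ⟨Sum.inl (⟨0, hr0⟩, ⟨0, hN0⟩)⟩
  refine ⟨Vtx r N g, inferInstance, hne, allEdges g E₀, allEdges_uniform (by omega) h1,
    allEdges_linear h1 h2, ?_, ?_⟩
  · -- the average degree
    have hcardE : #E₀ ≤ #(allEdges g E₀) := by
      rw [← Finset.card_image_of_injective E₀
        (Finset.map_injective (Function.Embedding.inl (α := Fin r × Fin N)
          (β := Aux r N g × Fin (r - 2))))]
      exact Finset.card_le_card Finset.subset_union_left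
    have hcardV : Fintype.card (Vtx r N g) ≤ r * N + r * (N * (N / g + 1)) * r := by
      rw [Fintype.card_sum, Fintype.card_prod, Fintype.card_prod, Fintype.card_fin,
        Fintype.card_fin, Fintype.card_fin]
      exact Nat.add_le_add_left (Nat.mul_le_mul card_aux_le (Nat.sub_le _ _)) _
    have hq : g * (N / g) ≤ N := Nat.mul_div_le N g
    set q := N / g with hqdef
    have hNbig : 32 * r ^ 3 * d ≤ N := by
      have h5 : 4 * d ≤ p := by omega
      have h6 : p ≤ p ^ 3 := Nat.le_self_pow (by norm_num) p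
      calc 32 * r ^ 3 * d = 8 * r ^ 3 * (4 * d) := by ring
        _ ≤ 8 * r ^ 3 * p ^ 3 := Nat.mul_le_mul_left _ (h5.trans h6)
    have hEbig : N ^ 2 ≤ 8 * r * (r * #(allEdges g E₀)) := by
      calc N ^ 2 = 4 * r ^ 2 * (16 * r ^ 4 * p ^ 6) := by rw [hN]; ring
        _ ≤ 4 * r ^ 2 * (2 * #E₀) := Nat.mul_le_mul_left _ h3
        _ ≤ 4 * r ^ 2 * (2 * #(allEdges g E₀)) := by gcongr
        _ = 8 * r * (r * #(allEdges g E₀)) := by ring
    have hfin : 8 * r * (d * Fintype.card (Vtx r N g)) ≤ N ^ 2 := by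
      have hA : 8 * r * (d * Fintype.card (Vtx r N g)) ≤
          8 * r * (d * (r * N + r * (N * (q + 1)) * r)) := by gcongr
      refine hA.trans ?_
      have hr2 : r ^ 2 ≤ r ^ 3 := Nat.pow_le_pow_right hr0 (by norm_num)
      have hB : 8 * r ^ 2 * d + 8 * r ^ 3 * d + 8 * r ^ 3 * d * q ≤ N := by
        have hC : 8 * r ^ 2 * d ≤ 8 * r ^ 3 * d := by gcongr
        have hD : 2 * (8 * r ^ 3 * d * q) ≤ N := by
          calc 2 * (8 * r ^ 3 * d * q) = g * q := by rw [hg]; ring
            _ ≤ N := hq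
        have hE : 32 * r ^ 3 * d = 4 * (8 * r ^ 3 * d) := by ring
        omega
      calc 8 * r * (d * (r * N + r * (N * (q + 1)) * r))
          = N * (8 * r ^ 2 * d + 8 * r ^ 3 * d + 8 * r ^ 3 * d * q) := by ring
        _ ≤ N * N := Nat.mul_le_mul_left _ hB
        _ = N ^ 2 := by ring
    have hfin2 : d * Fintype.card (Vtx r N g) ≤ r * #(allEdges g E₀) :=
      Nat.le_of_mul_le_mul_left (hfin.trans hEbig) (by positivity)
    have hcpos : (0 : ℝ) < Fintype.card (Vtx r N g) := by exact_mod_cast Fintype.card_pos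
    unfold avgDegree
    rw [le_div_iff₀ hcpos]
    calc D * (Fintype.card (Vtx r N g) : ℝ) ≤ d * (Fintype.card (Vtx r N g) : ℝ) := by gcongr
      _ ≤ (r : ℝ) * (#(allEdges g E₀) : ℝ) := by exact_mod_cast hfin2
  · apply Nat.sInf_le
    intro L hL hsep
    refine allEdges_colouring (s := K * p ^ 2) (by omega) hg0 (by positivity) h1 h4 ?_ L hL hsep
    calc 9 * (r * N) ^ 2 * (r * g) = (576 * r ^ 9 * g) * p ^ 6 := by rw [hN]; ring
      _ = K * p ^ 6 := by rw [hK]
      _ ≤ K ^ 3 * p ^ 6 := by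
        gcongr
        exact Nat.le_self_pow (by norm_num) K
      _ = (K * p ^ 2) ^ 3 := by ring

/-- **Answer to Q1 (negative).** For every `r ≥ 18` and every real `D` there is a linear
`r`-uniform hypergraph of average degree at least `D` whose separation choice number is at most
three; consequently the assertion of Q1 is false. -/
theorem result :
    (∀ r : ℕ, 18 ≤ r → ∀ D : ℝ,
      ∃ (V : Type) (_ : Fintype V) (_ : Nonempty V) (E : Finset (Finset V)),
        IsUniform r E ∧ IsLinear E ∧ D ≤ avgDegree r E ∧ chSep E ≤ 3) ∧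
    ¬ (∀ r : ℕ, 3 ≤ r → ∃ f g : ℝ → ℝ,
      Filter.Tendsto f Filter.atTop Filter.atTop ∧ Filter.Tendsto g Filter.atTop Filter.atTop ∧
      ∀ (V : Type) (_ : Fintype V) (_ : Nonempty V) (E : Finset (Finset V)),
        IsUniform r E → IsLinear E →
          f (avgDegree r E) ≤ (chSep E : ℝ) ∧ g (avgDegree r E) ≤ (chAd E : ℝ)) := by
  refine ⟨exists_hypergraph, fun h => ?_⟩
  obtain ⟨f, g, hf, _, hfg⟩ := h 18 (by norm_num)
  obtain ⟨D, hD⟩ := Filter.eventually_atTop.mp (hf.eventually_gt_atTop 3)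
  obtain ⟨V, hV, hne, E, h1, h2, h3, h4⟩ := exists_hypergraph 18 le_rfl D
  have h5 := hD _ h3
  have h6 := (hfg V hV hne E h1 h2).1
  have h7 : (chSep E : ℝ) ≤ 3 := by exact_mod_cast h4
  linarith

end Pool.Agent.Results.MP_873812_co.SepBounded
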